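import Mathlib

/-!
# Project SG, module OPEN: the number of simple real roots is locally constant
-/

set_option autoImplicit false

open Polynomial Filter Topology

namespace Pool.Agent.D0H19.SG

/-- a bound for the values -/
lemma eval_le {P : ℝ[X]} {n : ℕ} {c M y : ℝ} (hP : P.natDegree < n) (hc : ∀ i, |P.coeff i| ≤ c)
    (hM : 1 ≤ M) (hy : |y| ≤ M) : |P.eval y| ≤ c * (n * M ^ n) := by
  have hc0 : 0 ≤ c := (abs_nonneg _).trans (hc 0)
  rw [Polynomial.eval_eq_sum_range' hP]
  refine (Finset.abs_sum_le_sum_abs _ _).trans ?_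
  calc ∑ i ∈ Finset.range n, |P.coeff i * y ^ i| ≤ ∑ _i ∈ Finset.range n, c * M ^ n := by
        refine Finset.sum_le_sum fun i hi => ?_
        rw [abs_mul, abs_pow]
        have h1 : |y| ^ i ≤ M ^ n :=
          (pow_le_pow_left₀ (abs_nonneg _) hy i).trans
            (pow_le_pow_right₀ hM (Finset.mem_range.1 hi).le)
        exact mul_le_mul (hc i) h1 (by positivity) hc0
    _ = c * (n * M ^ n) := by
        rw [Finset.sum_const, Finset.card_range, nsmul_eq_mul]
        ring

/-- a bound for the roots -/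
lemma root_le {G : ℝ[X]} {N : ℕ} {A x : ℝ} (hG : G.Monic) (hN : G.natDegree = N) (hA : ∀ i, |G.coeff i| ≤ A)
    (hx : G.IsRoot x) : |x| ≤ 1 + N * A := by
  have hA0 : 0 ≤ A := (abs_nonneg _).trans (hA 0)
  by_contra hcon
  rw [not_le] at hcon
  have hNA : 0 ≤ (N : ℝ) * A := by positivity
  have hx1 : 1 < |x| := by linarith
  have h1 : G.eval x = 0 := hx
  rw [Polynomial.eval_eq_sum_range, hN, Finset.sum_range_succ] at h1
  have h2 : G.coeff N = 1 := by rw [← hN]; exact hG
  rw [h2, one_mul] at h1
  have h3 : |x| ^ N ≤ ∑ i ∈ Finset.range N, |G.coeff i * x ^ i| := by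
    rw [← abs_pow]
    have : x ^ N = -∑ i ∈ Finset.range N, G.coeff i * x ^ i := by linarith
    rw [this, abs_neg]
    exact Finset.abs_sum_le_sum_abs _ _
  rcases Nat.eq_zero_or_pos N with h0 | h0
  · rw [h0] at h3
    simp at h3
    linarith
  · obtain ⟨k, rfl⟩ : ∃ k, N = k + 1 := ⟨N - 1, by omega⟩
    have h4 : ∑ i ∈ Finset.range (k + 1), |G.coeff i * x ^ i| ≤ ∑ _i ∈ Finset.range (k + 1), A * |x| ^ k := by
      refine Finset.sum_le_sum fun i hi => ?_
      rw [abs_mul, abs_pow]
      have h5 : |x| ^ i ≤ |x| ^ k := pow_le_pow_right₀ hx1.le (by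
        have := Finset.mem_range.1 hi
        omega)
      exact mul_le_mul (hA i) h5 (by positivity) hA0
    rw [Finset.sum_const, Finset.card_range, nsmul_eq_mul] at h4
    have h5 : |x| ^ (k + 1) ≤ ((k + 1 : ℕ) : ℝ) * A * |x| ^ k := by
      calc |x| ^ (k + 1) ≤ _ := h3.trans h4
        _ = _ := by ring
    have h6 : 0 < |x| ^ k := by positivity
    rw [pow_succ, mul_comm] at h5
    have h7 := le_of_mul_le_mul_right h5 h6
    linarith

theorem open_roots (F : ℝ[X]) (hF : F.Monic) (hs : ∀ x, F.IsRoot x → (derivative F).eval x ≠ 0) :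
    ∃ ε : ℝ, 0 < ε ∧ ∀ G : ℝ[X], G.Monic → G.natDegree = F.natDegree →
      (∀ i, |G.coeff i - F.coeff i| ≤ ε) → {x | G.IsRoot x}.ncard = {x | F.IsRoot x}.ncard := by
  classical
  set N : ℕ := F.natDegree with hN
  have hF0 : F ≠ 0 := hF.ne_zero
  set Z : Finset ℝ := F.roots.toFinset with hZ
  have hZm : ∀ x, x ∈ Z ↔ F.IsRoot x := by
    intro x
    rw [hZ, Multiset.mem_toFinset, Polynomial.mem_roots hF0]
  -- bounds for the coefficients
  obtain ⟨A, hA⟩ : ∃ A : ℝ, ∀ i, |F.coeff i| ≤ A := by
    refine ⟨∑ i ∈ Finset.range (N + 1), |F.coeff i|, fun i => ?_⟩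
    by_cases hi : i < N + 1
    · exact Finset.single_le_sum (f := fun i => |F.coeff i|) (fun _ _ => abs_nonneg _) (Finset.mem_range.2 hi)
    · rw [Polynomial.coeff_eq_zero_of_natDegree_lt (by omega), abs_zero]
      exact Finset.sum_nonneg fun _ _ => abs_nonneg _
  have hA0 : 0 ≤ A := (abs_nonneg _).trans (hA 0)
  set M : ℝ := 1 + N * (A + 1) + ∑ x ∈ Z, (|x| + 1) with hM
  have hsum0 : 0 ≤ ∑ x ∈ Z, (|x| + 1) := Finset.sum_nonneg fun _ _ => by positivity
  have hM1 : 1 ≤ M := by
    have : 0 ≤ (N : ℝ) * (A + 1) := by positivity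
    linarith
  have hZM : ∀ x ∈ Z, |x| + 1 ≤ M := by
    intro x hx
    have h1 := Finset.single_le_sum (f := fun x : ℝ => |x| + 1) (fun _ _ => by positivity) hx
    have : 0 ≤ (N : ℝ) * (A + 1) := by positivity
    linarith
  -- the radius
  have hr : ∀ᶠ r : ℝ in 𝓝[>] 0, (∀ x ∈ Z, ∀ y, |y - x| ≤ r →
      |(derivative F).eval y - (derivative F).eval x| ≤ |(derivative F).eval x| / 4) ∧
      (∀ x ∈ Z, ∀ x' ∈ Z, x ≠ x' → 2 * r < |x - x'|) ∧ r ≤ 1 := by
    refine Filter.Eventually.and ?_ (Filter.Eventually.and ?_ ?_)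
    · rw [Filter.eventually_all_finset]
      intro x hx
      have hd : 0 < |(derivative F).eval x| := abs_pos.2 (hs x ((hZm x).1 hx))
      have hc : Continuous fun y => (derivative F).eval y := Polynomial.continuous _
      obtain ⟨ρ, hρ, h1⟩ := Metric.continuous_iff.1 hc x (|(derivative F).eval x| / 4) (by positivity)
      filter_upwards [Ioo_mem_nhdsGT hρ] with r hr y hy
      have := h1 y (by rw [Real.dist_eq]; exact lt_of_le_of_lt hy hr.2)
      rw [Real.dist_eq] at this
      exact this.le
    · rw [Filter.eventually_all_finset]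
      intro x hx
      rw [Filter.eventually_all_finset]
      intro x' hx'
      by_cases h : x = x'
      · exact Filter.Eventually.of_forall fun r h' => absurd h h'
      · have h0 : 0 < |x - x'| / 2 := by
          have := abs_pos.2 (sub_ne_zero.2 h)
          positivity
        filter_upwards [Ioo_mem_nhdsGT h0] with r hr _
        linarith [hr.2]
    · filter_upwards [Ioo_mem_nhdsGT (one_pos : (0 : ℝ) < 1)] with r hr
      exact hr.2.le
  obtain ⟨r, ⟨hr1, hr2, hr3⟩, hr0⟩ := (hr.and self_mem_nhdsWithin).exists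
  have hr0' : 0 < r := hr0
  -- the compact set
  set K : Set ℝ := Set.Icc (-M) M ∩ {y | ∀ x ∈ Z, r ≤ |y - x|} with hK
  have hKc : IsCompact K := by
    refine isCompact_Icc.inter_right ?_
    have : {y : ℝ | ∀ x ∈ Z, r ≤ |y - x|} = ⋂ x ∈ Z, {y : ℝ | r ≤ |y - x|} := by
      ext y
      simp
    rw [this]
    exact isClosed_biInter fun x _ => isClosed_le continuous_const (by fun_prop)
  obtain ⟨δ, hδ, hδK⟩ : ∃ δ : ℝ, 0 < δ ∧ ∀ y ∈ K, δ ≤ |F.eval y| := by
    rcases K.eq_empty_or_nonempty with h | h
    · exact ⟨1, one_pos, by simp [h]⟩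
    · obtain ⟨y0, hy0, hmin⟩ := hKc.exists_isMinOn h (f := fun y => |F.eval y|)
        (F.continuous.abs.continuousOn)
      refine ⟨|F.eval y0|, ?_, fun y hy => hmin hy⟩
      rw [abs_pos]
      intro h0
      have h1 := hy0.2 y0 ((hZm y0).2 h0)
      rw [sub_self, abs_zero] at h1
      linarith
  -- the closeness
  set S : ℝ := ((N + 1 : ℕ) : ℝ) * M ^ (N + 1) with hS
  have hS0 : 0 < S := by positivity
  have hε : ∀ᶠ ε : ℝ in 𝓝[>] 0, ε ≤ 1 ∧ ε * S < δ ∧ ∀ x ∈ Z,
      ε * (N + 1) * S ≤ |(derivative F).eval x| / 4 ∧ ε * S < |(derivative F).eval x| * r / 2 := by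
    refine Filter.Eventually.and ?_ (Filter.Eventually.and ?_ ?_)
    · filter_upwards [Ioo_mem_nhdsGT (one_pos : (0 : ℝ) < 1)] with ε h
      exact h.2.le
    · filter_upwards [Ioo_mem_nhdsGT (div_pos hδ hS0)] with ε h
      have := h.2
      rwa [lt_div_iff₀ hS0] at this
    · rw [Filter.eventually_all_finset]
      intro x hx
      have hd : 0 < |(derivative F).eval x| := abs_pos.2 (hs x ((hZm x).1 hx))
      have hN1 : (0 : ℝ) < ((N : ℝ) + 1) * S := by positivity
      filter_upwards [Ioo_mem_nhdsGT (div_pos (by positivity : 0 < |(derivative F).eval x| / 4) hN1),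
        Ioo_mem_nhdsGT (div_pos (by positivity : 0 < |(derivative F).eval x| * r / 2) hS0)] with ε h h'
      constructor
      · have := h.2.le
        rw [le_div_iff₀ hN1] at this
        linarith
      · have := h'.2
        rwa [lt_div_iff₀ hS0] at this
  obtain ⟨ε, ⟨he1, he2, he3⟩, he0⟩ := (hε.and self_mem_nhdsWithin).exists
  have he0' : 0 < ε := he0
  refine ⟨ε, he0', fun G hG hGN hGF => ?_⟩
  have hG0 : G ≠ 0 := hG.ne_zero
  -- the difference
  have hdeg : (G - F).natDegree < N + 1 := by
    have := Polynomial.natDegree_sub_le G F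
    rw [hGN, ← hN, max_self] at this
    omega
  have hval : ∀ y, |y| ≤ M → |G.eval y - F.eval y| ≤ ε * S := by
    intro y hy
    rw [← Polynomial.eval_sub]
    exact eval_le hdeg (fun i => by rw [Polynomial.coeff_sub]; exact hGF i) hM1 hy
  have hder : ∀ y, |y| ≤ M → |(derivative G).eval y - (derivative F).eval y| ≤ ε * (N + 1) * S := by
    intro y hy
    rw [← Polynomial.eval_sub, ← Polynomial.derivative_sub]
    refine eval_le (lt_of_le_of_lt (Polynomial.natDegree_derivative_le _) (by omega)) (fun i => ?_) hM1 hy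
    rw [Polynomial.coeff_derivative, abs_mul]
    by_cases hi : i + 1 < N + 1
    · have h1 : |(G - F).coeff (i + 1)| ≤ ε := by rw [Polynomial.coeff_sub]; exact hGF _
      have h2 : |((i : ℝ) + 1)| ≤ N + 1 := by
        rw [abs_of_nonneg (by positivity)]
        have : ((i + 1 : ℕ) : ℝ) ≤ ((N + 1 : ℕ) : ℝ) := by exact_mod_cast hi.le
        push_cast at this
        exact this
      exact mul_le_mul h1 h2 (abs_nonneg _) he0'.le
    · rw [Polynomial.coeff_eq_zero_of_natDegree_lt (by omega), abs_zero, zero_mul]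
      positivity
  -- roots of `G` are bounded
  have hGM : ∀ x, G.IsRoot x → |x| ≤ M := by
    intro x hx
    have h1 : ∀ i, |G.coeff i| ≤ A + 1 := by
      intro i
      have h2 := abs_sub_abs_le_abs_sub (G.coeff i) (F.coeff i)
      have h3 := hGF i
      have h4 := hA i
      linarith
    have h2 := root_le hG hGN h1 hx
    linarith
  -- derivative of `G` near the roots of `F`
  have hGd : ∀ x ∈ Z, ∀ y, |y - x| ≤ r →
      0 < (derivative F).eval x * (derivative G).eval y ∧
        |(derivative F).eval x| ^ 2 / 2 ≤ (derivative F).eval x * (derivative G).eval y := by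
    intro x hx y hy
    have hd : 0 < |(derivative F).eval x| := abs_pos.2 (hs x ((hZm x).1 hx))
    have hyM : |y| ≤ M := by
      have h1 := hZM x hx
      have h2 := abs_sub_abs_le_abs_sub y x
      linarith
    have h1 := hr1 x hx y hy
    have h2 := hder y hyM
    have h3 := (he3 x hx).1
    set d := (derivative F).eval x with hd'
    have h4 : |(derivative G).eval y - d| ≤ |d| / 2 := by
      have h5 := abs_add_le ((derivative G).eval y - (derivative F).eval y) ((derivative F).eval y - d)
      rw [sub_add_sub_cancel] at h5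
      linarith
    have h5 : |d| ^ 2 / 2 ≤ d * (derivative G).eval y := by
      have h6 : d * (derivative G).eval y = |d| ^ 2 + d * ((derivative G).eval y - d) := by
        rw [sq_abs]; ring
      have h7 : -(|d| * (|d| / 2)) ≤ d * ((derivative G).eval y - d) := by
        have h8 : |d * ((derivative G).eval y - d)| ≤ |d| * (|d| / 2) := by
          rw [abs_mul]
          exact mul_le_mul_of_nonneg_left h4 hd.le
        exact (abs_le.1 h8).1
      rw [h6]
      nlinarith
    exact ⟨lt_of_lt_of_le (by positivity) h5, h5⟩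
  -- uniqueness
  have huniq : ∀ x ∈ Z, ∀ y y', |y - x| ≤ r → |y' - x| ≤ r → G.IsRoot y → G.IsRoot y' → y = y' := by
    intro x hx
    have key : ∀ y y', |y - x| ≤ r → |y' - x| ≤ r → G.IsRoot y → G.IsRoot y' → ¬y < y' := by
      intro y y' hy hy' h1 h2 hlt
      obtain ⟨c, hc, hc'⟩ := exists_deriv_eq_zero (f := fun z => G.eval z) hlt G.continuous.continuousOn
        (by show G.eval y = G.eval y'; rw [h1, h2])
      rw [Polynomial.deriv] at hc'
      have h3 : |c - x| ≤ r := by
        rw [abs_le] at hy hy' ⊢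
        constructor <;> linarith [hc.1, hc.2, hy.1, hy.2, hy'.1, hy'.2]
      have h4 := (hGd x hx c h3).1
      rw [hc', mul_zero] at h4
      exact lt_irrefl _ h4
    intro y y' hy hy' h1 h2
    rcases lt_trichotomy y y' with h | h | h
    · exact absurd h (key y y' hy hy' h1 h2)
    · exact h
    · exact absurd h (key y' y hy' hy h2 h1)
  -- existence
  have hex : ∀ x ∈ Z, ∃ y, |y - x| ≤ r ∧ G.IsRoot y := by
    intro x hx
    set d := (derivative F).eval x with hd'
    have hd : 0 < |d| := abs_pos.2 (hs x ((hZm x).1 hx))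
    have hxM : |x| ≤ M := by linarith [hZM x hx]
    have hF0' : F.eval x = 0 := (hZm x).1 hx
    have hGx : |G.eval x| ≤ ε * S := by
      have := hval x hxM
      rwa [hF0', sub_zero] at this
    have hsm := (he3 x hx).2
    have hdG : |d * G.eval x| < |d| ^ 2 / 2 * r := by
      rw [abs_mul]
      have : |d| * |G.eval x| ≤ |d| * (ε * S) := mul_le_mul_of_nonneg_left hGx hd.le
      have h2 : |d| * (ε * S) < |d| * (|d| * r / 2) := mul_lt_mul_of_pos_left hsm hd
      nlinarith
    have hdG' := abs_lt.1 hdG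
    -- right end
    obtain ⟨c1, hc1, hc1'⟩ := exists_deriv_eq_slope (fun z => G.eval z) (show x < x + r by linarith)
      G.continuous.continuousOn G.differentiable.differentiableOn
    obtain ⟨c2, hc2, hc2'⟩ := exists_deriv_eq_slope (fun z => G.eval z) (show x - r < x by linarith)
      G.continuous.continuousOn G.differentiable.differentiableOn
    rw [Polynomial.deriv] at hc1' hc2'
    have h1 := (hGd x hx c1 (by
      rw [abs_le]
      constructor <;> linarith [hc1.1, hc1.2])).2
    have h2 := (hGd x hx c2 (by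
      rw [abs_le]
      constructor <;> linarith [hc2.1, hc2.2])).2
    rw [hc1', add_sub_cancel_left, mul_div_assoc', le_div_iff₀ hr0'] at h1
    rw [hc2', sub_sub_cancel, mul_div_assoc', le_div_iff₀ hr0'] at h2
    have hright : 0 < d * G.eval (x + r) := by
      have : d * (G.eval (x + r) - G.eval x) = d * G.eval (x + r) - d * G.eval x := by ring
      rw [this] at h1
      linarith [hdG'.1]
    have hleft : d * G.eval (x - r) < 0 := by
      have : d * (G.eval x - G.eval (x - r)) = d * G.eval x - d * G.eval (x - r) := by ring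
      rw [this] at h2
      linarith [hdG'.2]
    have hcont : ContinuousOn (fun z => d * G.eval z) (Set.Icc (x - r) (x + r)) :=
      (continuous_const.mul G.continuous).continuousOn
    have h3 := intermediate_value_Icc (by linarith : x - r ≤ x + r) hcont
    obtain ⟨y, hy, hy'⟩ := h3 ⟨hleft.le, hright.le⟩
    refine ⟨y, ?_, ?_⟩
    · rw [abs_le]
      constructor <;> linarith [hy.1, hy.2]
    · have hd0 : d ≠ 0 := abs_pos.1 hd
      exact (mul_eq_zero.1 hy').resolve_left hd0
  -- the bijection
  choose! f hf1 hf2 using hex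
  have hbij : Set.BijOn f {x | F.IsRoot x} {x | G.IsRoot x} := by
    refine ⟨fun x hx => hf2 x ((hZm x).2 hx), ?_, ?_⟩
    · intro x hx x' hx' h
      by_contra hne
      have h1 := hr2 x ((hZm x).2 hx) x' ((hZm x').2 hx') hne
      have h2 := hf1 x ((hZm x).2 hx)
      have h3 := hf1 x' ((hZm x').2 hx')
      rw [← h] at h3
      have h4 := abs_sub_le x (f x) x'
      rw [abs_sub_comm x (f x)] at h4
      linarith
    · intro y hy
      have hyM := hGM y hy
      have h1 : y ∉ K := by
        intro hyK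
        have h2 := hδK y hyK
        have h3 := hval y hyM
        have h4 : G.eval y = 0 := hy
        rw [h4, zero_sub, abs_neg] at h3
        linarith
      have h2 : ∃ x ∈ Z, |y - x| < r := by
        by_contra hcon
        push Not at hcon
        exact h1 ⟨abs_le.1 hyM, hcon⟩
      obtain ⟨x, hx, hxy⟩ := h2
      exact ⟨x, (hZm x).1 hx, huniq x hx _ _ (hf1 x hx) hxy.le (hf2 x hx) hy⟩
  rw [← hbij.image_eq, hbij.injOn.ncard_image]

end Pool.Agent.D0H19.SG
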