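import Pool.Agent.D0H41.SG.Stm
import Pool.Agent.D0H19.SG.OpenCore

/-!
# Project SG, module OPEN
-/

set_option autoImplicit false

namespace Pool.Agent.D0H19.SG

theorem t_OPEN : Pool.Agent.D0H41.SG.S_OPEN := open_roots

end Pool.Agent.D0H19.SG
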